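import Mathlib

/-! Products of cyclic groups of bounded order acting on spherically homogeneous rooted trees. -/

open Filter

namespace Pool.Agent.KS6_65.FppTree

/-- The vertices of level `k` of the spherically homogeneous rooted tree in which every vertex of
level `i` has `m i` children. -/
abbrev Lev (m : ℕ → ℕ) (k : ℕ) : Type := (i : Fin k) → Fin (m i)

/-- The parent of a vertex of level `k + 1`. -/
def parent {m : ℕ → ℕ} {k : ℕ} (v : Lev m (k + 1)) : Lev m k := fun i => v i.castSucc

/-- The automorphism group of the tree, as the group of the compatible families of permutations of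
the levels. -/
def AutT (m : ℕ → ℕ) : Subgroup (∀ k, Equiv.Perm (Lev m k)) where
  carrier := {g | ∀ (k : ℕ) (v : Lev m (k + 1)), parent (g (k + 1) v) = g k (parent v)}
  one_mem' := fun _ _ => rfl
  mul_mem' := by
    intro g h hg hh k v
    show parent (g (k + 1) (h (k + 1) v)) = g k (h k (parent v))
    rw [hg, hh]
  inv_mem' := by
    intro g hg k v
    show parent ((g (k + 1))⁻¹ v) = (g k)⁻¹ (parent v)
    rw [Equiv.Perm.eq_inv_iff_eq, ← hg]
    simp

/-- The profinite topology: the product of the discrete topologies on the groups of permutations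
of the levels. -/
@[instance_reducible] def profTop (m : ℕ → ℕ) : TopologicalSpace (∀ k, Equiv.Perm (Lev m k)) :=
  @Pi.topologicalSpace ℕ (fun k => Equiv.Perm (Lev m k)) (fun _ => ⊥)

/-- The group `π_k(H)` of permutations of level `k` induced by `H`. -/
def levelGroup {m : ℕ → ℕ} (H : Subgroup (∀ k, Equiv.Perm (Lev m k))) (k : ℕ) :
    Subgroup (Equiv.Perm (Lev m k)) :=
  H.map (Pi.evalMonoidHom (fun k => Equiv.Perm (Lev m k)) k)

/-- The proportion `p_k(H)` of the elements of `π_k(H)` that fix at least one vertex of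
level `k`. -/
noncomputable def prop {m : ℕ → ℕ} (H : Subgroup (∀ k, Equiv.Perm (Lev m k))) (k : ℕ) : ℝ :=
  (Nat.card {x : levelGroup H k // ∃ v : Lev m k, (x : Equiv.Perm (Lev m k)) v = v} : ℝ) /
    (Nat.card (levelGroup H k) : ℝ)

/-- The fixed-point proportion of `H` is `c`. -/
def HasFPP {m : ℕ → ℕ} (H : Subgroup (∀ k, Equiv.Perm (Lev m k))) (c : ℝ) : Prop :=
  Tendsto (prop H) atTop (nhds c)

/-- A surjective homomorphism preserves densities. -/
theorem dens {A B : Type*} [Group A] [Group B] [Finite A] (φ : A →* B) (hφ : Function.Surjective φ)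
    (S : B → Prop) :
    (Nat.card {b // S b} : ℝ) / Nat.card B = (Nat.card {a // S (φ a)} : ℝ) / Nat.card A := by
  classical
  have : Fintype A := Fintype.ofFinite A
  have : Finite B := Finite.of_surjective φ hφ
  have : Fintype B := Fintype.ofFinite B
  have key : ∀ T : B → Prop, Nat.card {a // T (φ a)} = Nat.card {b // T b} *
      (Finset.univ.filter (fun a => φ a = 1)).card := by
    intro T
    rw [Nat.card_eq_fintype_card, Nat.card_eq_fintype_card, Fintype.card_subtype,
      Fintype.card_subtype]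
    rw [Finset.card_eq_sum_card_fiberwise (f := φ) (t := Finset.univ.filter T)]
    · rw [Finset.sum_congr rfl (g := fun _ => (Finset.univ.filter (fun a => φ a = 1)).card),
        Finset.sum_const, smul_eq_mul]
      intro b hb
      rw [Finset.mem_filter] at hb
      rw [← MonoidHom.card_fiber_eq_of_mem_range φ (hφ b) (hφ 1), Finset.filter_filter]
      congr 1
      ext a
      simp only [Finset.mem_filter, Finset.mem_univ, true_and]
      constructor
      · rintro ⟨-, h⟩; exact h
      · intro h; rw [h]; exact ⟨hb.2, rfl⟩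
    · intro a ha
      simpa using ha
  have h1 := key S
  have h2 := key (fun _ => True)
  have h3 : Nat.card {a : A // (fun _ : B => True) (φ a)} = Nat.card A :=
    Nat.card_congr (Equiv.subtypeUnivEquiv (fun _ => trivial))
  have h4 : Nat.card {b : B // (fun _ : B => True) b} = Nat.card B :=
    Nat.card_congr (Equiv.subtypeUnivEquiv (fun _ => trivial))
  rw [h3, h4] at h2
  have hpos : (0 : ℝ) < ((Finset.univ.filter (fun a => φ a = 1)).card : ℝ) := by
    have : (Finset.univ.filter (fun a => φ a = 1)).Nonempty := ⟨1, by simp⟩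
    exact_mod_cast this.card_pos
  rw [h1, h2]
  push_cast
  rw [mul_div_mul_right _ _ hpos.ne']

section

variable {m : ℕ → ℕ} {N : ℕ}

/-- The product action of `(ℤ/N)^k` on level `k`. -/
def trK (ρ : ∀ i, Multiplicative (ZMod N) →* Equiv.Perm (Fin (m i))) (k : ℕ) :
    (Fin k → Multiplicative (ZMod N)) →* Equiv.Perm (Lev m k) where
  toFun a := Equiv.piCongrRight (fun i : Fin k => ρ i (a i))
  map_one' := by
    ext v : 2
    simp [Equiv.piCongrRight]
  map_mul' a b := by
    ext v : 2
    simp [Equiv.piCongrRight]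

theorem trK_apply (ρ : ∀ i, Multiplicative (ZMod N) →* Equiv.Perm (Fin (m i))) (k : ℕ)
    (a : Fin k → Multiplicative (ZMod N)) (v : Lev m k) (i : Fin k) :
    trK ρ k a v i = ρ i (a i) (v i) := rfl

/-- The product action of `(ℤ/N)^ℕ` on the tree. -/
def tr (ρ : ∀ i, Multiplicative (ZMod N) →* Equiv.Perm (Fin (m i))) :
    (ℕ → Multiplicative (ZMod N)) →* (∀ k, Equiv.Perm (Lev m k)) where
  toFun a k := trK ρ k (fun i => a i)
  map_one' := by
    funext k
    exact (trK ρ k).map_one
  map_mul' a b := by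
    funext k
    exact (trK ρ k).map_mul _ _

variable (ρ : ∀ i, Multiplicative (ZMod N) →* Equiv.Perm (Fin (m i)))

theorem tr_apply (a : ℕ → Multiplicative (ZMod N)) (k : ℕ) :
    tr ρ a k = trK ρ k (fun i => a i) := rfl

theorem range_le : (tr ρ).range ≤ AutT m := by
  rintro g ⟨a, rfl⟩ k v
  rfl

theorem range_closed [NeZero N] :
    @IsClosed _ (profTop m) ((tr ρ).range : Set (∀ k, Equiv.Perm (Lev m k))) := by
  let _ : ∀ k, TopologicalSpace (Equiv.Perm (Lev m k)) := fun _ => ⊥
  have : ∀ k, DiscreteTopology (Equiv.Perm (Lev m k)) := fun _ => ⟨rfl⟩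
  let _ : TopologicalSpace (Multiplicative (ZMod N)) := ⊥
  have : DiscreteTopology (Multiplicative (ZMod N)) := ⟨rfl⟩
  have : Finite (Multiplicative (ZMod N)) := inferInstanceAs (Finite (ZMod N))
  show IsClosed ((tr ρ).range : Set (∀ k, Equiv.Perm (Lev m k)))
  have hc : Continuous (tr ρ) := by
    apply continuous_pi
    intro k
    exact (continuous_of_discreteTopology (f := fun x : Fin k → Multiplicative (ZMod N) =>
      trK ρ k x)).comp (continuous_pi fun i => continuous_apply (i : ℕ))
  rw [MonoidHom.coe_range]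
  exact (isCompact_range hc).isClosed

theorem level_range (k : ℕ) : levelGroup (tr ρ).range k = (trK ρ k).range := by
  ext x
  constructor
  · rintro ⟨g, ⟨a, rfl⟩, rfl⟩
    exact ⟨fun i => a i, rfl⟩
  · rintro ⟨a, rfl⟩
    refine ⟨tr ρ (fun j => if h : j < k then a ⟨j, h⟩ else 1), ⟨_, rfl⟩, ?_⟩
    show trK ρ k _ = trK ρ k a
    congr 1
    funext i
    simp

/-- The whole group has fixed-point proportion `0`. -/
theorem fpp_range [NeZero N] (hρ : ∀ i x, ρ i (Multiplicative.ofAdd 1) x ≠ x) :
    HasFPP (tr ρ).range 0 := by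
  classical
  have : Finite (Multiplicative (ZMod N)) := inferInstanceAs (Finite (ZMod N))
  have : Fintype (Multiplicative (ZMod N)) := Fintype.ofFinite _
  have hN : Fintype.card (Multiplicative (ZMod N)) = N := by
    rw [← Nat.card_eq_fintype_card]
    exact Nat.card_zmod N
  have hNpos : (0 : ℝ) < N := by exact_mod_cast Nat.pos_of_ne_zero (NeZero.ne N)
  have key : ∀ k, prop (tr ρ).range k ≤ (((N : ℝ) - 1) / N) ^ k := by
    intro k
    unfold prop
    rw [level_range]
    have h1 := dens (trK ρ k).rangeRestrict (trK ρ k).rangeRestrict_surjective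
      (fun x => ∃ v : Lev m k, (x : Equiv.Perm (Lev m k)) v = v)
    rw [h1]
    have h2 : Nat.card {a : Fin k → Multiplicative (ZMod N) //
        ∃ v : Lev m k, ((trK ρ k).rangeRestrict a : Equiv.Perm (Lev m k)) v = v} ≤ (N - 1) ^ k := by
      rw [Nat.card_eq_fintype_card, Fintype.card_subtype]
      have h3 : (Finset.univ.filter (fun a : Fin k → Multiplicative (ZMod N) =>
          ∃ v : Lev m k, ((trK ρ k).rangeRestrict a : Equiv.Perm (Lev m k)) v = v)) ⊆
          Fintype.piFinset (fun _ => Finset.univ.erase (Multiplicative.ofAdd 1)) := by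
        intro a ha
        rw [Finset.mem_filter] at ha
        obtain ⟨-, v, hv⟩ := ha
        rw [Fintype.mem_piFinset]
        intro i
        rw [Finset.mem_erase]
        refine ⟨fun h => ?_, Finset.mem_univ _⟩
        have h4 : ρ i (a i) (v i) = v i := congrFun hv i
        rw [h] at h4
        exact hρ i (v i) h4
      refine (Finset.card_le_card h3).trans ?_
      rw [Fintype.card_piFinset]
      simp [Finset.card_erase_of_mem, hN]
    have h5 : Nat.card (Fin k → Multiplicative (ZMod N)) = N ^ k := by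
      rw [Nat.card_eq_fintype_card]
      simp [hN]
    rw [h5, div_pow]
    push_cast
    apply div_le_div_of_nonneg_right _ (by positivity)
    have h6 : ((N - 1 : ℕ) : ℝ) = (N : ℝ) - 1 := by
      rw [Nat.cast_sub (Nat.one_le_iff_ne_zero.2 (NeZero.ne N)), Nat.cast_one]
    rw [← h6]
    exact_mod_cast h2
  have h0 : ∀ k, 0 ≤ prop (tr ρ).range k := fun k => by unfold prop; positivity
  refine squeeze_zero h0 key ?_
  apply tendsto_pow_atTop_nhds_zero_of_lt_one
  · apply div_nonneg _ hNpos.le
    have : (1 : ℝ) ≤ N := by exact_mod_cast Nat.one_le_iff_ne_zero.2 (NeZero.ne N)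
    linarith
  · rw [div_lt_one hNpos]
    linarith

/-- The finitely generated subgroups. -/
theorem fpp_fg [NeZero N] (hm : ∀ i, 2 ≤ m i) (n : ℕ) (g : Fin n → (tr ρ).range) :
    ∃ c : ℝ, 1 / (N : ℝ) ^ n ≤ c ∧
      HasFPP (Subgroup.closure (Set.range fun i => (g i : ∀ k, Equiv.Perm (Lev m k)))) c := by
  classical
  have : Finite (Multiplicative (ZMod N)) := inferInstanceAs (Finite (ZMod N))
  have hg : ∀ i, ∃ a, tr ρ a = (g i : ∀ k, Equiv.Perm (Lev m k)) := fun i => (g i).2
  choose a ha using hg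
  set H := Subgroup.closure (Set.range fun i => (g i : ∀ k, Equiv.Perm (Lev m k))) with hH
  -- the subgroup is an image of `(ℤ/N)^n`
  let lc : (Fin n → ZMod N) →+ (ℕ → ZMod N) :=
    (Fintype.linearCombination (ZMod N) (fun i j => (a i j).toAdd)).toAddMonoidHom
  let ψ : Multiplicative (Fin n → ZMod N) →* (∀ k, Equiv.Perm (Lev m k)) :=
    (tr ρ).comp
      { toFun := fun x j => Multiplicative.ofAdd (lc x.toAdd j)
        map_one' := by funext j; simp
        map_mul' := by intro x y; funext j; simp }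
  have h1 : H ≤ ψ.range := by
    rw [hH, Subgroup.closure_le]
    rintro x ⟨i, rfl⟩
    refine ⟨Multiplicative.ofAdd (Pi.single i 1), ?_⟩
    show tr ρ _ = (g i : ∀ k, Equiv.Perm (Lev m k))
    rw [← ha]
    congr 1
    funext j
    show Multiplicative.ofAdd (Fintype.linearCombination (ZMod N) (fun i j => (a i j).toAdd)
      (Pi.single i 1) j) = a i j
    rw [Fintype.linearCombination_apply_single, one_smul]
    rfl
  have hfin : Finite (Multiplicative (Fin n → ZMod N)) :=
    inferInstanceAs (Finite (Fin n → ZMod N))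
  have hcardψ : Nat.card ψ.range ≤ N ^ n := by
    refine (Nat.card_le_card_of_surjective ψ.rangeRestrict ψ.rangeRestrict_surjective).trans ?_
    have : Nat.card (Multiplicative (Fin n → ZMod N)) = Nat.card (Fin n → ZMod N) := rfl
    rw [this, Nat.card_fun]
    simp
  have hfinψ : Finite ψ.range := Finite.of_surjective ψ.rangeRestrict ψ.rangeRestrict_surjective
  have hfinH : Finite H := Finite.of_injective (Subgroup.inclusion h1)
    (Subgroup.inclusion_injective h1)
  have hcard : Nat.card H ≤ N ^ n := (Subgroup.card_le_of_le h1).trans hcardψ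
  have hHA : H ≤ AutT m := h1.trans (by
    rintro x ⟨y, rfl⟩
    exact range_le ρ ⟨_, rfl⟩)
  have hprop : ∀ k, prop H k = (Nat.card {h : H // ∃ v : Lev m k, h.1 k v = v} : ℝ) / Nat.card H := by
    intro k
    unfold prop
    let φ : H →* levelGroup H k :=
      { toFun := fun h => ⟨h.1 k, ⟨h.1, h.2, rfl⟩⟩
        map_one' := rfl
        map_mul' := fun _ _ => rfl }
    have hφ : Function.Surjective φ := by
      rintro ⟨x, y, hy, rfl⟩
      exact ⟨⟨y, hy⟩, rfl⟩
    exact dens φ hφ (fun x => ∃ v : Lev m k, (x : Equiv.Perm (Lev m k)) v = v)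
  have hpos : (0 : ℝ) < Nat.card H := by exact_mod_cast Nat.card_pos
  have hanti : Antitone (prop H) := by
    apply antitone_nat_of_succ_le
    intro k
    rw [hprop, hprop]
    apply div_le_div_of_nonneg_right _ hpos.le
    have : Nat.card {h : H // ∃ v : Lev m (k + 1), h.1 (k + 1) v = v} ≤
        Nat.card {h : H // ∃ v : Lev m k, h.1 k v = v} := by
      apply Nat.card_le_card_of_injective
        (fun h => (⟨h.1, h.2.elim fun v hv => ⟨parent v, by rw [← hHA h.1.2, hv]⟩⟩ :
          {h : H // ∃ v : Lev m k, h.1 k v = v}))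
      intro x y hxy
      exact Subtype.ext (congrArg (fun z => z.1) hxy)
    exact_mod_cast this
  have hlow : ∀ k, (1 : ℝ) / (N : ℝ) ^ n ≤ prop H k := by
    intro k
    rw [hprop]
    have hone : 1 ≤ Nat.card {h : H // ∃ v : Lev m k, h.1 k v = v} := by
      have : Nonempty {h : H // ∃ v : Lev m k, h.1 k v = v} :=
        ⟨⟨1, fun i => ⟨0, by have := hm i; omega⟩, rfl⟩⟩
      exact Nat.card_pos
    have hone' : (1 : ℝ) ≤ (Nat.card {h : H // ∃ v : Lev m k, h.1 k v = v} : ℝ) := by
      exact_mod_cast hone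
    have hcard' : (Nat.card H : ℝ) ≤ (N : ℝ) ^ n := by exact_mod_cast hcard
    calc (1 : ℝ) / (N : ℝ) ^ n ≤ 1 / Nat.card H := one_div_le_one_div_of_le hpos hcard'
      _ ≤ _ := div_le_div_of_nonneg_right hone' hpos.le
  refine ⟨⨅ k, prop H k, le_ciInf hlow, ?_⟩
  exact tendsto_atTop_ciInf hanti ⟨1 / (N : ℝ) ^ n, by rintro _ ⟨k, rfl⟩; exact hlow k⟩

/-- The group is level-transitive if all the local actions are transitive. -/
theorem trans_range (hρ : ∀ i x y, ∃ a, ρ i a x = y) (k : ℕ) (v w : Lev m k) :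
    ∃ g ∈ (tr ρ).range, g k v = w := by
  choose a ha using fun i : Fin k => hρ i (v i) (w i)
  refine ⟨tr ρ (fun j => if h : j < k then a ⟨j, h⟩ else 1), ⟨_, rfl⟩, ?_⟩
  funext i
  show ρ i (if h : (i : ℕ) < k then a ⟨i, h⟩ else 1) (v i) = w i
  rw [dif_pos i.2]
  exact ha i

theorem comm_range (x y : ∀ k, Equiv.Perm (Lev m k)) (hx : x ∈ (tr ρ).range)
    (hy : y ∈ (tr ρ).range) : x * y = y * x := by
  obtain ⟨a, rfl⟩ := hx
  obtain ⟨b, rfl⟩ := hy
  rw [← map_mul, ← map_mul, mul_comm]

end

/-- The rotations of `ℤ/d`. -/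
def rot (d N : ℕ) (h : d ∣ N) : Multiplicative (ZMod N) →* Equiv.Perm (ZMod d) where
  toFun x := Equiv.addRight (ZMod.castHom h (ZMod d) x.toAdd)
  map_one' := by
    ext y
    simp
  map_mul' x y := by
    ext z : 1
    show z + ZMod.castHom h (ZMod d) (x.toAdd + y.toAdd) =
      z + ZMod.castHom h (ZMod d) y.toAdd + ZMod.castHom h (ZMod d) x.toAdd
    rw [map_add]
    ring

theorem rot_apply (d N : ℕ) (h : d ∣ N) (x : ZMod N) (y : ZMod d) :
    rot d N h (Multiplicative.ofAdd x) y = y + ZMod.castHom h (ZMod d) x := rfl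

theorem rot_one (d N : ℕ) (h : d ∣ N) (hd : 2 ≤ d) (y : ZMod d) :
    rot d N h (Multiplicative.ofAdd 1) y ≠ y := by
  rw [rot_apply, map_one]
  intro h'
  have h1 : (1 : ZMod d) = 0 := add_eq_left.1 h'
  have : Fact (1 < d) := ⟨by omega⟩
  exact one_ne_zero h1

theorem exists_rho' (d N : ℕ) (hd : 2 ≤ d) (h : d ∣ N) :
    ∃ ρ : Multiplicative (ZMod N) →* Equiv.Perm (Fin d),
      (∀ x, ρ (Multiplicative.ofAdd 1) x ≠ x) ∧ ∀ x y, ∃ a, ρ a x = y := by
  have : NeZero d := ⟨by omega⟩
  let e : ZMod d ≃ Fin d := Fintype.equivFinOfCardEq (ZMod.card d)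
  refine ⟨e.permCongrHom.toMonoidHom.comp (rot d N h), ?_, ?_⟩
  · intro x hx
    have h1 : e (rot d N h (Multiplicative.ofAdd 1) (e.symm x)) = x := hx
    exact rot_one d N h hd (e.symm x) (e.injective (by rw [h1, Equiv.apply_symm_apply]))
  · intro x y
    obtain ⟨a, ha⟩ := ZMod.castHom_surjective h (e.symm y - e.symm x)
    refine ⟨Multiplicative.ofAdd a, ?_⟩
    show e (rot d N h (Multiplicative.ofAdd a) (e.symm x)) = y
    rw [rot_apply, ha]
    simp

theorem exists_rho (d : ℕ) (hd : 2 ≤ d) :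
    ∃ ρ : Multiplicative (ZMod 6) →* Equiv.Perm (Fin d), ∀ x, ρ (Multiplicative.ofAdd 1) x ≠ x := by
  obtain ⟨a, b, hab⟩ : ∃ a b, d = a * 2 + b * 3 := by
    rcases Nat.even_or_odd d with h | h
    · obtain ⟨a, ha⟩ := h
      exact ⟨a, 0, by omega⟩
    · obtain ⟨a, ha⟩ := h
      exact ⟨a - 1, 1, by omega⟩
  have hcard : Fintype.card ((Fin a × ZMod 2) ⊕ (Fin b × ZMod 3)) = d := by
    rw [Fintype.card_sum, Fintype.card_prod, Fintype.card_prod, Fintype.card_fin, Fintype.card_fin,
      ZMod.card, ZMod.card, hab]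
  let e : (Fin a × ZMod 2) ⊕ (Fin b × ZMod 3) ≃ Fin d := Fintype.equivFinOfCardEq hcard
  let τ : Multiplicative (ZMod 6) →* Equiv.Perm ((Fin a × ZMod 2) ⊕ (Fin b × ZMod 3)) :=
    { toFun := fun x => Equiv.sumCongr
        (Equiv.prodCongr (Equiv.refl _) (rot 2 6 (by norm_num) x))
        (Equiv.prodCongr (Equiv.refl _) (rot 3 6 (by norm_num) x))
      map_one' := by
        ext y : 1
        rcases y with ⟨y, z⟩ | ⟨y, z⟩ <;> simp
      map_mul' := by
        intro u v
        ext y : 1
        rcases y with ⟨y, z⟩ | ⟨y, z⟩ <;> simp }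
  refine ⟨e.permCongrHom.toMonoidHom.comp τ, ?_⟩
  intro x hx
  have h1 : e (τ (Multiplicative.ofAdd 1) (e.symm x)) = x := hx
  have h2 : τ (Multiplicative.ofAdd 1) (e.symm x) = e.symm x :=
    e.injective (by rw [h1, Equiv.apply_symm_apply])
  rcases hx' : e.symm x with ⟨y, z⟩ | ⟨y, z⟩ <;> rw [hx'] at h2
  · have h3 : (Sum.inl (y, rot 2 6 (by norm_num) (Multiplicative.ofAdd 1) z) :
      (Fin a × ZMod 2) ⊕ (Fin b × ZMod 3)) = Sum.inl (y, z) := h2
    exact rot_one 2 6 (by norm_num) le_rfl z (by simpa using h3)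
  · have h3 : (Sum.inr (y, rot 3 6 (by norm_num) (Multiplicative.ofAdd 1) z) :
      (Fin a × ZMod 2) ⊕ (Fin b × ZMod 3)) = Sum.inr (y, z) := h2
    exact rot_one 3 6 (by norm_num) (by norm_num) z (by simpa using h3)

end Pool.Agent.KS6_65.FppTree
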