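import Mathlib

/-! Permanents of the matrices `f |j-k|` of order divisible by `p`, modulo `p`. -/

namespace Pool.Agent.KS6_65.PermMod

open Finset

/-- A sum over a set on which a permutation of `p`-power order acts, modulo `p`. -/
theorem sum_fixed {α : Type*} [Fintype α] [DecidableEq α] {p a : ℕ} [hp : Fact p.Prime]
    (T : Equiv.Perm α) (hT : T ^ p ^ a = 1) (w : α → ZMod p) (hw : ∀ x, w (T x) = w x) :
    ∑ x, w x = ∑ x ∈ univ.filter (fun x => T x = x), w x := by
  classical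
  have key : ∀ v : ZMod p, ((univ.filter (fun x => w x = v)).card : ZMod p) =
      ((univ.filter (fun x => T x = x ∧ w x = v)).card : ZMod p) := by
    intro v
    let T' : Equiv.Perm {x // w x = v} := T.subtypePerm (fun x => by rw [hw])
    have hT' : T' ^ p ^ a = 1 := by
      ext x
      simp only [T', Equiv.Perm.subtypePerm_pow, hT]
      simp
    have h := Equiv.Perm.card_compl_support_modEq hT'
    rw [← ZMod.natCast_eq_natCast_iff, Fintype.card_subtype] at h
    rw [← h]
    congr 1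
    refine Finset.card_bij (fun x _ => x.1) ?_ ?_ ?_
    · intro x hx
      simp only [Finset.mem_compl, Equiv.Perm.mem_support, not_not] at hx
      simp only [mem_filter, mem_univ, true_and]
      exact ⟨congrArg Subtype.val hx, x.2⟩
    · intro x _ y _ h
      exact Subtype.ext h
    · intro x hx
      simp only [mem_filter, mem_univ, true_and] at hx
      refine ⟨⟨x, hx.2⟩, ?_, rfl⟩
      simp only [Finset.mem_compl, Equiv.Perm.mem_support, not_not]
      exact Subtype.ext hx.1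
  have h1 : ∑ x, w x = ∑ v : ZMod p, ((univ.filter (fun x => w x = v)).card : ZMod p) * v := by
    rw [← Finset.sum_fiberwise univ w w]
    refine sum_congr rfl fun v _ => ?_
    rw [Finset.sum_congr rfl (g := fun _ => v) (fun x hx => (mem_filter.1 hx).2), sum_const,
      nsmul_eq_mul]
  have h2 : ∑ x ∈ univ.filter (fun x => T x = x), w x =
      ∑ v : ZMod p, ((univ.filter (fun x => T x = x ∧ w x = v)).card : ZMod p) * v := by
    rw [← Finset.sum_fiberwise (univ.filter (fun x => T x = x)) w w]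
    refine sum_congr rfl fun v _ => ?_
    rw [Finset.filter_filter, Finset.sum_congr rfl (g := fun _ => v)
      (fun x hx => ((mem_filter.1 hx).2).2), sum_const, nsmul_eq_mul]
  rw [h1, h2]
  exact sum_congr rfl fun v _ => by rw [key]

section rot

variable {m q : ℕ} [NeZero q]

/-- The rotation of the second coordinate. -/
def R : Equiv.Perm (Fin m × Fin q) := Equiv.prodCongr (Equiv.refl _) (Equiv.addRight 1)

theorem R_apply (i : Fin m) (t : Fin q) : (R (i, t) : Fin m × Fin q) = (i, t + 1) := rfl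

theorem R_pow (k : ℕ) (i : Fin m) (t : Fin q) : ((R ^ k) (i, t) : Fin m × Fin q) = (i, t + k • 1) := by
  induction k generalizing t with
  | zero => simp
  | succ k ih => rw [pow_succ, Equiv.Perm.mul_apply, R_apply, ih, succ_nsmul, add_assoc, add_comm (1 : Fin q)]

theorem R_pow_q : (R : Equiv.Perm (Fin m × Fin q)) ^ q = 1 := by
  ext x : 1
  obtain ⟨i, t⟩ := x
  rw [R_pow]
  have h : q • (1 : Fin q) = 0 := by
    have := card_nsmul_eq_zero (x := (1 : Fin q))
    rwa [Fintype.card_fin] at this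
  rw [h, add_zero]
  rfl

/-- The permutations commuting with the rotation. -/
def Φ (x : Equiv.Perm (Fin m) × (Fin m → Fin q)) : Equiv.Perm (Fin m × Fin q) :=
  Equiv.prodShear x.1 (fun i => Equiv.addRight (x.2 i))

theorem Φ_apply (x : Equiv.Perm (Fin m) × (Fin m → Fin q)) (i : Fin m) (t : Fin q) :
    Φ x (i, t) = (x.1 i, t + x.2 i) := rfl

theorem Φ_inj : Function.Injective (Φ : Equiv.Perm (Fin m) × (Fin m → Fin q) → _) := by
  intro x y h
  have h1 : ∀ i, (x.1 i, (0 : Fin q) + x.2 i) = (y.1 i, 0 + y.2 i) := fun i => by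
    rw [← Φ_apply, ← Φ_apply, h]
  refine Prod.ext ?_ ?_
  · ext i : 1
    exact (Prod.ext_iff.1 (h1 i)).1
  · funext i
    simpa using (Prod.ext_iff.1 (h1 i)).2

theorem fix_Φ (x : Equiv.Perm (Fin m) × (Fin m → Fin q)) : R * Φ x * R⁻¹ = Φ x := by
  rw [mul_inv_eq_iff_eq_mul]
  ext y : 1
  obtain ⟨i, t⟩ := y
  rw [Equiv.Perm.mul_apply, Equiv.Perm.mul_apply, R_apply, Φ_apply, Φ_apply, R_apply]
  exact Prod.ext rfl (add_right_comm _ _ _)

theorem fix_ex (σ : Equiv.Perm (Fin m × Fin q)) (h : R * σ * R⁻¹ = σ) : ∃ x, Φ x = σ := by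
  rw [mul_inv_eq_iff_eq_mul] at h
  have h1 : ∀ (k : ℕ) (i : Fin m) (t : Fin q), σ (i, t + k • 1) = ((σ (i, t)).1, (σ (i, t)).2 + k • 1) := by
    intro k
    have hk : ((R : Equiv.Perm (Fin m × Fin q)) ^ k) * σ = σ * R ^ k :=
      ((show Commute R σ from h).pow_left k)
    intro i t
    rw [← R_pow, ← R_pow]
    exact (DFunLike.congr_fun hk (i, t)).symm
  have h3 : ∀ t : Fin q, (t : ℕ) • (1 : Fin q) = t := by
    have h4 : ∀ k : ℕ, ∀ hk : k < q, k • (1 : Fin q) = ⟨k, hk⟩ := by
      intro k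
      induction k with
      | zero => intro hk; apply Fin.ext; simp
      | succ k ih =>
        intro hk
        rw [succ_nsmul, ih (by omega)]
        apply Fin.ext
        rw [Fin.val_add, Fin.val_one']
        simp only
        rw [Nat.mod_eq_of_lt (show 1 < q by omega), Nat.mod_eq_of_lt hk]
    intro t
    exact h4 t t.2
  have h2 : ∀ (i : Fin m) (t : Fin q), σ (i, t) = ((σ (i, 0)).1, t + (σ (i, 0)).2) := by
    intro i t
    have := h1 t i 0
    rw [h3, zero_add] at this
    rw [this, add_comm]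
  have inj : Function.Injective (fun i => (σ (i, 0)).1) := by
    intro i j hij
    have h4 : σ (i, (σ (j, 0)).2 - (σ (i, 0)).2) = σ (j, 0) := by
      rw [h2]
      exact Prod.ext hij (by simp)
    exact (Prod.ext_iff.1 (σ.injective h4)).1
  refine ⟨(Equiv.ofBijective _ (Finite.injective_iff_bijective.1 inj), fun i => (σ (i, 0)).2), ?_⟩
  ext x : 1
  obtain ⟨i, t⟩ := x
  rw [Φ_apply, h2]
  rfl

/-- The reduction to the permutations commuting with the rotation. -/
theorem sum_perm {p a : ℕ} [hp : Fact p.Prime] (hq : q = p ^ a)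
    (w : Equiv.Perm (Fin m × Fin q) → ZMod p) (hw : ∀ σ, w (R * σ * R⁻¹) = w σ) :
    ∑ σ, w σ = ∑ τ : Equiv.Perm (Fin m), ∑ c : Fin m → Fin q, w (Φ (τ, c)) := by
  classical
  have hT : ((MulAut.toPerm _ (MulAut.conj (R : Equiv.Perm (Fin m × Fin q))))
      : Equiv.Perm (Equiv.Perm (Fin m × Fin q))) ^ p ^ a = 1 := by
    rw [← map_pow, ← map_pow, ← hq, R_pow_q, map_one, map_one]
  rw [sum_fixed _ hT w (fun σ => hw σ), ← Fintype.sum_prod_type']
  refine (Finset.sum_bij (fun x _ => Φ x) ?_ ?_ ?_ ?_).symm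
  · intro x _
    simp only [mem_filter, mem_univ, true_and]
    exact fix_Φ x
  · intro x _ y _ h
    exact Φ_inj h
  · intro σ hσ
    simp only [mem_filter, mem_univ, true_and] at hσ
    obtain ⟨x, hx⟩ := fix_ex σ hσ
    exact ⟨x, mem_univ _, hx⟩
  · intro x _
    rfl

end rot

section weight

variable {m q : ℕ} [NeZero q] {p : ℕ}

/-- The number of the pair `(i, t)`. -/
def vl (x : Fin m × Fin q) : ℤ := (x.1 : ℕ) + (m : ℤ) * (x.2 : ℕ)

/-- The matrix entry. -/
def A (f : ZMod p → ZMod p) (x y : Fin m × Fin q) : ZMod p := f ((|vl y - vl x| : ℤ) : ZMod p)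

/-- The sign of the wrap-around. -/
def eps (e : ZMod p) (x : Fin m × Fin q) : ZMod p := if (x.2 : ℕ) + 1 = q then e else 1

theorem vl_rot_ne (x : Fin m × Fin q) (h : (x.2 : ℕ) + 1 ≠ q) : vl (R x) = vl x + m := by
  obtain ⟨i, t⟩ := x
  have h1 : ((t + 1 : Fin q) : ℕ) = t + 1 := by
    have := t.2
    simp only at h
    rw [Fin.val_add, Fin.val_one', Nat.add_mod_mod, Nat.mod_eq_of_lt (by omega)]
  rw [R_apply, vl, vl]
  simp only [h1]
  push_cast
  ring

theorem vl_rot_eq (x : Fin m × Fin q) (h : (x.2 : ℕ) + 1 = q) : vl (R x) = vl x + m - m * q := by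
  obtain ⟨i, t⟩ := x
  simp only at h
  have h1 : ((t + 1 : Fin q) : ℕ) = 0 := by
    rw [Fin.val_add, Fin.val_one', Nat.add_mod_mod, h, Nat.mod_self]
  rw [R_apply, vl, vl]
  simp only [h1]
  have h2 : (q : ℤ) = t + 1 := by exact_mod_cast h.symm
  rw [h2]
  push_cast
  ring

omit [NeZero q] in
theorem vl_bd (x : Fin m × Fin q) : (m : ℤ) * (x.2 : ℕ) ≤ vl x ∧ vl x < m * ((x.2 : ℕ) + 1) := by
  have := x.1.2
  unfold vl
  constructor
  · have : (0 : ℤ) ≤ ((x.1 : ℕ) : ℤ) := Int.natCast_nonneg _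
    linarith
  · have h : (((x.1 : ℕ) : ℤ)) < m := by exact_mod_cast this
    linarith

variable (f : ZMod p → ZMod p) (e : ZMod p)

theorem A_rot (hq : ((q : ℕ) : ZMod p) = 0) (he : e * e = 1) (hf : ∀ x, f (-x) = e * f x)
    (x y : Fin m × Fin q) : A f (R x) (R y) = eps e x * eps e y * A f x y := by
  have key : ∀ x y : Fin m × Fin q, (x.2 : ℕ) + 1 = q → (y.2 : ℕ) + 1 ≠ q →
      f ((|vl y - vl x + m * q| : ℤ) : ZMod p) = e * f ((|vl y - vl x| : ℤ) : ZMod p) := by
    intro x y hx hy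
    have h1 := vl_bd x
    have h2 := vl_bd y
    have hy' : (y.2 : ℕ) + 2 ≤ q := by have := y.2.2; omega
    have hx' : ((x.2 : ℕ) : ℤ) + 1 = q := by exact_mod_cast hx
    have h3 : (m : ℤ) * ((y.2 : ℕ) + 1) ≤ m * (x.2 : ℕ) := by
      apply mul_le_mul_of_nonneg_left _ (Int.natCast_nonneg _)
      have : ((y.2 : ℕ) : ℤ) + 2 ≤ q := by exact_mod_cast hy'
      linarith
    have h4 : (0 : ℤ) ≤ m * (y.2 : ℕ) := by positivity
    rw [hx'] at h1
    rw [abs_of_nonneg (by linarith), abs_of_nonpos (by linarith), ← hf]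
    congr 1
    push_cast
    rw [hq]
    ring
  unfold A eps
  by_cases hx : (x.2 : ℕ) + 1 = q <;> by_cases hy : (y.2 : ℕ) + 1 = q
  · rw [if_pos hx, if_pos hy, vl_rot_eq x hx, vl_rot_eq y hy, he, one_mul,
      show vl y + (m : ℤ) - m * q - (vl x + m - m * q) = vl y - vl x by ring]
  · rw [if_pos hx, if_neg hy, vl_rot_eq x hx, vl_rot_ne y hy, mul_one, ← key x y hx hy,
      show vl y + (m : ℤ) - (vl x + m - m * q) = vl y - vl x + m * q by ring]
  · rw [if_neg hx, if_pos hy, vl_rot_ne x hx, vl_rot_eq y hy, one_mul]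
    have := key y x hy hx
    rw [abs_sub_comm (vl y) (vl x), ← this, ← abs_neg,
      show -(vl y + (m : ℤ) - m * q - (vl x + m)) = vl x - vl y + m * q by ring]
  · rw [if_neg hx, if_neg hy, vl_rot_ne x hx, vl_rot_ne y hy, one_mul, one_mul,
      show vl y + (m : ℤ) - (vl x + m) = vl y - vl x by ring]

theorem w_inv (hq : ((q : ℕ) : ZMod p) = 0) (he : e * e = 1) (hf : ∀ x, f (-x) = e * f x)
    (σ : Equiv.Perm (Fin m × Fin q)) :
    ∏ x, A f x ((R * σ * R⁻¹ : Equiv.Perm (Fin m × Fin q)) x) = ∏ x, A f x (σ x) := by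
  rw [← Equiv.prod_comp (R : Equiv.Perm (Fin m × Fin q))]
  have h : ∀ x, A f (R x) ((R * σ * R⁻¹ : Equiv.Perm (Fin m × Fin q)) (R x)) = eps e x * eps e (σ x) * A f x (σ x) := by
    intro x
    rw [← A_rot f e hq he hf]
    simp
  rw [Finset.prod_congr rfl fun x _ => h x, prod_mul_distrib, prod_mul_distrib,
    Equiv.prod_comp σ (fun x => eps e x), ← prod_mul_distrib]
  have h2 : ∏ x : Fin m × Fin q, eps e x * eps e x = 1 := by
    apply prod_eq_one
    intro x _
    unfold eps
    split_ifs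
    · exact he
    · exact one_mul 1
  rw [h2, one_mul]

/-- The entry of the small matrix belonging to the translation `c`. -/
def g (i k : Fin m) (c : ℕ) : ZMod p :=
  if c = 0 then f ((|((k : ℕ) : ℤ) - ((i : ℕ) : ℤ)| : ℤ) : ZMod p)
  else e ^ c * f ((((k : ℕ) : ℤ) - ((i : ℕ) : ℤ) + m * c : ℤ) : ZMod p)

omit [NeZero q] in
theorem prod_wrap (c : ℕ) (hc : c ≤ q) :
    ∏ t : Fin q, (if q ≤ (t : ℕ) + c then e else 1) = e ^ c := by
  rw [Fin.prod_univ_eq_prod_range (fun t => if q ≤ t + c then e else 1) q, prod_ite, prod_const,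
    prod_const_one, mul_one]
  congr 1
  have : (range q).filter (fun t => q ≤ t + c) = Ico (q - c) q := by
    ext t
    simp only [mem_filter, mem_range, mem_Ico]
    omega
  rw [this, Nat.card_Ico]
  omega

theorem row (hq : ((q : ℕ) : ZMod p) = 0) (hF : ∀ x : ZMod p, x ^ q = x)
    (hf : ∀ x, f (-x) = e * f x) (i k : Fin m) (c : Fin q) :
    ∏ t : Fin q, A f (i, t) (k, t + c) = g f e i k c := by
  by_cases hc : (c : ℕ) = 0
  · have hc' : c = 0 := Fin.ext (by rw [hc]; rfl)
    have h1 : ∀ t : Fin q, A f (i, t) (k, t + c) =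
        f ((|((k : ℕ) : ℤ) - ((i : ℕ) : ℤ)| : ℤ) : ZMod p) := by
      intro t
      rw [hc', add_zero, A, vl, vl]
      simp only
      rw [add_sub_add_right_eq_sub]
    rw [g, if_pos hc, Finset.prod_congr rfl fun t _ => h1 t, prod_const, Finset.card_univ,
      Fintype.card_fin, hF]
  · rw [g, if_neg hc]
    have h1 : ∀ t : Fin q, A f (i, t) (k, t + c) = (if q ≤ (t : ℕ) + (c : ℕ) then e else 1) *
        f ((((k : ℕ) : ℤ) - ((i : ℕ) : ℤ) + m * (c : ℕ) : ℤ) : ZMod p) := by
      intro t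
      have hi : ((i : ℕ) : ℤ) < m := by exact_mod_cast i.2
      have hk : ((k : ℕ) : ℤ) < m := by exact_mod_cast k.2
      have hi0 : (0 : ℤ) ≤ ((i : ℕ) : ℤ) := Int.natCast_nonneg _
      have hk0 : (0 : ℤ) ≤ ((k : ℕ) : ℤ) := Int.natCast_nonneg _
      have hcq : (c : ℕ) + 1 ≤ q := c.2
      have hcq' : ((c : ℕ) : ℤ) + 1 ≤ q := by exact_mod_cast hcq
      have hc1 : (1 : ℤ) ≤ ((c : ℕ) : ℤ) := by exact_mod_cast Nat.one_le_iff_ne_zero.2 hc
      have hm1 : (m : ℤ) * 1 ≤ m * (c : ℕ) := mul_le_mul_of_nonneg_left hc1 (Int.natCast_nonneg _)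
      have hm2 : (m : ℤ) * ((c : ℕ) + 1) ≤ m * q := mul_le_mul_of_nonneg_left hcq' (Int.natCast_nonneg _)
      by_cases h : q ≤ (t : ℕ) + (c : ℕ)
      · have h2 : ((t + c : Fin q) : ℕ) + q = t + c := by
          have := t.2
          have := c.2
          rw [Fin.val_add, Nat.mod_eq_sub_mod h, Nat.mod_eq_of_lt (by omega)]
          omega
        have h3 : (((t + c : Fin q) : ℕ) : ℤ) = t + c - q := by
          have : (((t + c : Fin q) : ℕ) : ℤ) + q = t + c := by exact_mod_cast h2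
          linarith
        rw [if_pos h, ← hf, A, vl, vl]
        simp only [h3]
        rw [abs_of_nonpos (by nlinarith)]
        congr 1
        push_cast
        rw [hq]
        ring
      · have h2 : ((t + c : Fin q) : ℕ) = t + c := by
          rw [Fin.val_add, Nat.mod_eq_of_lt (by omega)]
        rw [if_neg h, A, vl, vl, one_mul]
        simp only [h2]
        rw [abs_of_nonneg (by push_cast; nlinarith)]
        congr 2
        push_cast
        ring
    rw [Finset.prod_congr rfl fun t _ => h1 t, prod_mul_distrib, prod_wrap e _ c.2.le, prod_const,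
      Finset.card_univ, Fintype.card_fin, hF]

/-- The sum over all translations, symmetrised. -/
theorem sum_g (hq : ((q : ℕ) : ZMod p) = 0) (hodd : Odd q) (he : e * e = 1)
    (hf : ∀ x, f (-x) = e * f x) (i k : Fin m) :
    ∑ c : Fin q, g f e i k c =
      ∑ c ∈ range q, e ^ c * f ((|((k : ℕ) : ℤ) - ((i : ℕ) : ℤ)| + m * c : ℤ) : ZMod p) := by
  rw [Fin.sum_univ_eq_sum_range (fun c => g f e i k c) q]
  obtain ⟨q', rfl⟩ : ∃ q', q = q' + 1 := ⟨q - 1, by have := NeZero.ne q; omega⟩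
  rw [sum_range_succ', sum_range_succ']
  congr 1
  · rcases le_total ((i : ℕ) : ℤ) ((k : ℕ) : ℤ) with h | h
    · refine sum_congr rfl fun c _ => ?_
      rw [g, if_neg (Nat.succ_ne_zero c), abs_of_nonneg (by linarith)]
    · rw [← Finset.sum_range_reflect]
      refine sum_congr rfl fun c hc => ?_
      have hc' : c < q' := mem_range.1 hc
      have h1 : q' - 1 - c + 1 = q' - c := by omega
      rw [g, if_neg (Nat.succ_ne_zero _), h1, abs_of_nonpos (by linarith)]
      have h2 : ((q' : ℕ) : ZMod p) = -1 := by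
        push_cast at hq
        linear_combination hq
      have h3 : ((((k : ℕ) : ℤ) - ((i : ℕ) : ℤ) + m * ((q' - c : ℕ) : ℤ) : ℤ) : ZMod p) =
          - ((-(((k : ℕ) : ℤ) - ((i : ℕ) : ℤ)) + m * ((c + 1 : ℕ) : ℤ) : ℤ) : ZMod p) := by
        rw [Nat.cast_sub hc'.le]
        push_cast
        rw [h2]
        ring
      rw [h3, hf, ← mul_assoc]
      congr 1
      obtain ⟨s, hs⟩ := hodd
      have h4 : e ^ (q' - c) * e * e ^ (c + 1) = 1 := by
        rw [← pow_succ, ← pow_add, show q' - c + 1 + (c + 1) = 2 * (s + 1) by omega, pow_mul,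
          pow_two, he, one_pow]
      have h5 : e ^ (c + 1) * e ^ (c + 1) = 1 := by rw [← mul_pow, he, one_pow]
      calc e ^ (q' - c) * e = e ^ (q' - c) * e * (e ^ (c + 1) * e ^ (c + 1)) := by rw [h5, mul_one]
        _ = (e ^ (q' - c) * e * e ^ (c + 1)) * e ^ (c + 1) := by ring
        _ = e ^ (c + 1) := by rw [h4, one_mul]
  · simp [g]

/-- The permanent over the pairs. -/
theorem pairs {a : ℕ} [hp : Fact p.Prime] (hqp : q = p ^ a) (hq : ((q : ℕ) : ZMod p) = 0)
    (hodd : Odd q) (he : e * e = 1) (hf : ∀ x, f (-x) = e * f x) :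
    ∑ σ : Equiv.Perm (Fin m × Fin q), ∏ x, A f x (σ x) =
      ∑ τ : Equiv.Perm (Fin m), ∏ i, ∑ c ∈ range q,
        e ^ c * f ((|((τ i : ℕ) : ℤ) - ((i : ℕ) : ℤ)| + m * c : ℤ) : ZMod p) := by
  have hF : ∀ x : ZMod p, x ^ q = x := by
    intro x
    rw [hqp, ZMod.pow_card_pow]
  rw [sum_perm hqp (fun σ => ∏ x, A f x (σ x)) (fun σ => w_inv f e hq he hf σ)]
  refine sum_congr rfl fun τ _ => ?_
  have h1 : ∀ c : Fin m → Fin q, ∏ x, A f x (Φ (τ, c) x) = ∏ i, g f e i (τ i) (c i) := by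
    intro c
    rw [Fintype.prod_prod_type]
    refine prod_congr rfl fun i _ => ?_
    rw [← row f e hq hF hf]
    rfl
  rw [sum_congr rfl fun c _ => h1 c]
  have h2 : ∏ i, ∑ c ∈ range q,
        e ^ c * f ((|((τ i : ℕ) : ℤ) - ((i : ℕ) : ℤ)| + m * c : ℤ) : ZMod p) =
      ∏ i, ∑ c : Fin q, g f e i (τ i) c :=
    prod_congr rfl fun i _ => (sum_g f e hq hodd he hf i (τ i)).symm
  rw [h2, Finset.prod_univ_sum, Fintype.piFinset_univ]

end weight

/-- Numbering the pairs. -/
def num (m q : ℕ) : Fin m × Fin q ≃ Fin (q * m) := (Equiv.prodComm _ _).trans finProdFinEquiv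

theorem num_val {m q : ℕ} (x : Fin m × Fin q) : (((num m q x : Fin (q * m)) : ℕ) : ℤ) = vl x := by
  unfold num vl
  simp [finProdFinEquiv]

/-- The permanent of `f |j-k|` of order `q m` is a permanent of order `m`. -/
theorem per_eq {p : ℕ} [hp : Fact p.Prime] (h2 : p ≠ 2) {a : ℕ} (ha : 1 ≤ a) (m : ℕ)
    (f : ZMod p → ZMod p) (e : ZMod p) (he : e * e = 1) (hf : ∀ x, f (-x) = e * f x) :
    (Matrix.of fun j k : Fin (p ^ a * m) =>
      f ((|((j : ℕ) : ℤ) - ((k : ℕ) : ℤ)| : ℤ) : ZMod p)).permanent =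
    (Matrix.of fun j k : Fin m => ∑ c ∈ range (p ^ a),
      e ^ c * f ((|((j : ℕ) : ℤ) - ((k : ℕ) : ℤ)| + m * c : ℤ) : ZMod p)).permanent := by
  have hpos : 0 < p ^ a := pow_pos hp.out.pos a
  have : NeZero (p ^ a) := ⟨hpos.ne'⟩
  have hq : ((p ^ a : ℕ) : ZMod p) = 0 := by
    rw [Nat.cast_pow, ZMod.natCast_self, zero_pow (by omega)]
  have hodd : Odd (p ^ a) := (hp.out.odd_of_ne_two h2).pow
  have h := pairs (m := m) (q := p ^ a) f e rfl hq hodd he hf
  unfold Matrix.permanent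
  simp only [Matrix.of_apply]
  rw [← h]
  refine (Fintype.sum_equiv ((num m (p ^ a)).permCongr) _ _ fun σ => ?_).symm
  rw [← Equiv.prod_comp (num m (p ^ a))]
  refine prod_congr rfl fun x _ => ?_
  rw [A, ← num_val, ← num_val, Equiv.permCongr_apply, Equiv.symm_apply_apply]

theorem alt_sum {p : ℕ} (hp : Odd p) (h : ℕ → ZMod p) (hper : ∀ c, h (c + p) = h c) (k : ℕ) :
    ∑ c ∈ range (p * (2 * k + 1)), (-1) ^ c * h c = ∑ c ∈ range p, (-1) ^ c * h c := by
  have hper' : ∀ k c, h (c + p * k) = h c := by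
    intro k
    induction k with
    | zero => intro c; simp
    | succ k ih => intro c; rw [mul_add, mul_one, ← add_assoc, hper, ih]
  induction k with
  | zero => simp
  | succ k ih =>
    rw [show p * (2 * (k + 1) + 1) = p * (2 * k + 1) + (p + p) by ring, sum_range_add, ih,
      sum_range_add]
    have h1 : ∀ c, (-1 : ZMod p) ^ (p * (2 * k + 1) + c) * h (p * (2 * k + 1) + c) =
        - ((-1) ^ c * h c) := by
      intro c
      rw [pow_add, add_comm (p * (2 * k + 1)) c, hper', (hp.mul (by exact ⟨k, rfl⟩)).neg_one_pow]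
      ring
    have h3 : ∀ c, (-1 : ZMod p) ^ (p * (2 * k + 1) + (p + c)) * h (p * (2 * k + 1) + (p + c)) =
        (-1) ^ c * h c := by
      intro c
      rw [h1, pow_add, add_comm p c, hper, hp.neg_one_pow]
      ring
    rw [sum_congr rfl fun c _ => h1 c, sum_congr rfl fun c _ => h3 c, sum_neg_distrib]
    ring

theorem sum_per {p : ℕ} (h : ℕ → ZMod p) (hper : ∀ c, h (c + p) = h c) (k : ℕ) :
    ∑ c ∈ range (p * k), h c = k * ∑ c ∈ range p, h c := by
  have hper' : ∀ k c, h (c + p * k) = h c := by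
    intro k
    induction k with
    | zero => intro c; simp
    | succ k ih => intro c; rw [mul_add, mul_one, ← add_assoc, hper, ih]
  induction k with
  | zero => simp
  | succ k ih =>
    rw [mul_add, mul_one, sum_range_add, ih, sum_congr rfl fun c _ =>
      show h (p * k + c) = h c by rw [add_comm, hper']]
    push_cast
    ring

theorem lin_sum {R : Type*} [CommRing R] (x y : R) (s : ℕ) :
    2 * ∑ c ∈ range (2 * s + 1), (-1) ^ c * (x + y * (c : R)) = 2 * x + y * (2 * s) := by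
  induction s with
  | zero => simp
  | succ s ih =>
    rw [show 2 * (s + 1) + 1 = 2 * s + 1 + 1 + 1 by ring, sum_range_succ, sum_range_succ, mul_add,
      mul_add, ih]
    have h1 : (-1 : R) ^ (2 * s + 1) = -1 := Odd.neg_one_pow ⟨s, rfl⟩
    have h2 : (-1 : R) ^ (2 * s + 1 + 1) = 1 := Even.neg_one_pow ⟨s + 1, by ring⟩
    rw [h1, h2]
    push_cast
    ring

end Pool.Agent.KS6_65.PermMod
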